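import Pool.Agent.W2helper31.GP.Stm5
import Pool.Agent.W2helper11.GP.MARG
import Pool.Agent.W2helper98.GP.MIDL

/-!
# Project GP5, piece TWO: the Gaussian product inequality in dimension two

`E f(X) f(Y) ≥ (E f(X))^2` for a standard normal pair with correlation `ρ ≥ 0`: write
`X = √ρ W + √(1-ρ) U`, `Y = √ρ W + √(1-ρ) V` and use Jensen's inequality in `W`.
-/

set_option autoImplicit false

open MeasureTheory ProbabilityTheory
open scoped ENNReal NNReal RealInnerProductSpace

namespace Pool.Agent.W2helper45.GP5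

open Pool.Agent.W2helper31.GP

theorem apply_eq {d : ℕ} (L : StrongDual ℝ (Fin d → ℝ)) (x : Fin d → ℝ) :
    L x = ∑ i, x i * L (Pi.single i 1) := by
  conv_lhs => rw [pi_eq_sum_univ' x]
  rw [map_sum]
  exact Finset.sum_congr rfl fun i _ => by
    rw [map_smul, smul_eq_mul]

/-- the characteristic function of a linear image of the standard Gaussian measure -/
theorem cf {d r : ℕ} (b : Fin d → Fin r → ℝ) (L : StrongDual ℝ (Fin d → ℝ)) :
    charFunDual ((Gam r).map (fun x i => ∑ j, b i j * x j)) L =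
      Complex.exp (-((∑ i, ∑ k, L (Pi.single i 1) * L (Pi.single k 1) *
        ∑ j, b i j * b k j : ℝ) : ℂ) / 2) := by
  let T : EuclideanSpace ℝ (Fin r) →L[ℝ] (Fin d → ℝ) :=
    ContinuousLinearMap.pi fun i => InnerProductSpace.toDualMap ℝ _ (WithLp.toLp 2 (b i))
  have hT : ∀ x : EuclideanSpace ℝ (Fin r), ∀ i, T x i = ∑ j, b i j * x j := by
    intro x i
    change ⟪WithLp.toLp 2 (b i), x⟫ = _
    simp only [PiLp.inner_apply]
    exact Finset.sum_congr rfl fun j _ => by
      change x j * b i j = _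
      ring
  have hmap : (Gam r).map (fun x i => ∑ j, b i j * x j) =
      (stdGaussian (EuclideanSpace ℝ (Fin r))).map T := by
    rw [← map_pi_eq_stdGaussian, Measure.map_map T.continuous.measurable (by fun_prop)]
    congr 1
    ext x i
    rw [Function.comp_apply, hT]
  rw [hmap]
  rw [charFunDual_map]
  let c : Fin d → ℝ := fun i => L (Pi.single i 1)
  have hL : L.comp T = InnerProductSpace.toDualMap ℝ _
      (WithLp.toLp 2 (fun j => ∑ i, b i j * c i)) := by
    ext x
    rw [ContinuousLinearMap.comp_apply, apply_eq]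
    change _ = ⟪WithLp.toLp 2 (fun j => ∑ i, b i j * c i), x⟫
    simp only [PiLp.inner_apply, hT]
    simp_rw [Finset.sum_mul]
    rw [Finset.sum_comm]
    refine Finset.sum_congr rfl fun j _ => ?_
    change _ = x j * ∑ i, b i j * c i
    rw [Finset.mul_sum]
    exact Finset.sum_congr rfl fun i _ => by ring
  rw [hL, ← charFun_eq_charFunDual_toDualMap, charFun_stdGaussian]
  have hn : ‖(WithLp.toLp 2 (fun j => ∑ i, b i j * c i) : EuclideanSpace ℝ (Fin r))‖ ^ 2 =
      ∑ i, ∑ k, L (Pi.single i 1) * L (Pi.single k 1) * ∑ j, b i j * b k j := by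
    rw [EuclideanSpace.real_norm_sq_eq]
    have h2 : ∀ j, (∑ i, b i j * c i) ^ 2 = ∑ i, ∑ k, c i * c k * (b i j * b k j) := by
      intro j
      rw [sq, Finset.sum_mul_sum]
      exact Finset.sum_congr rfl fun i _ => Finset.sum_congr rfl fun k _ => by ring
    simp_rw [h2]
    rw [Finset.sum_comm]
    refine Finset.sum_congr rfl fun i _ => ?_
    rw [Finset.sum_comm]
    refine Finset.sum_congr rfl fun k _ => ?_
    rw [← Finset.mul_sum]
  rw [← hn]
  congr 1
  push_cast
  ring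

theorem map_eq {d r r' : ℕ} (b : Fin d → Fin r → ℝ) (b' : Fin d → Fin r' → ℝ)
    (h : ∀ i k, ∑ j, b i j * b k j = ∑ j, b' i j * b' k j) :
    (Gam r).map (fun x i => ∑ j, b i j * x j) = (Gam r').map (fun x i => ∑ j, b' i j * x j) := by
  have := Pool.Agent.W2helper11.GP.prob_Gam r
  have := Pool.Agent.W2helper11.GP.prob_Gam r'
  have h1 : IsProbabilityMeasure ((Gam r).map (fun x i => ∑ j, b i j * x j)) :=
    Measure.isProbabilityMeasure_map (show Measurable
      (fun (x : Fin r → ℝ) (i : Fin d) => ∑ j, b i j * x j) by fun_prop).aemeasurable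
  have h2 : IsProbabilityMeasure ((Gam r').map (fun x i => ∑ j, b' i j * x j)) :=
    Measure.isProbabilityMeasure_map (show Measurable
      (fun (x : Fin r' → ℝ) (i : Fin d) => ∑ j, b' i j * x j) by fun_prop).aemeasurable
  apply Measure.ext_of_charFunDual
  ext L
  rw [cf, cf]
  simp_rw [h]

theorem jensen {f : ℝ → ℝ≥0∞} (hf : Measurable f) :
    (∫⁻ x, f x ∂(gaussianReal 0 1)) ^ 2 ≤ ∫⁻ x, f x ^ 2 ∂(gaussianReal 0 1) := by
  have h := ENNReal.lintegral_mul_le_Lp_mul_Lq (gaussianReal 0 1)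
    (p := 2) (q := 2) (by constructor <;> norm_num) hf.aemeasurable
    (aemeasurable_const (b := (1 : ℝ≥0∞)))
  simp only [Pi.mul_apply, mul_one, ENNReal.one_rpow, lintegral_const, measure_univ] at h
  have h2 : (∫⁻ x, f x ∂(gaussianReal 0 1)) ^ (2 : ℝ) ≤
      ((∫⁻ x, f x ^ (2 : ℝ) ∂(gaussianReal 0 1)) ^ (1 / 2 : ℝ)) ^ (2 : ℝ) :=
    ENNReal.rpow_le_rpow h (by norm_num)
  rw [← ENNReal.rpow_mul] at h2
  norm_num at h2
  exact h2

theorem lint_two (b : Fin 2 → Fin 2 → ℝ) (h00 : ∑ j, b 0 j * b 0 j = 1)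
    (h11 : ∑ j, b 1 j * b 1 j = 1) (h01 : 0 ≤ ∑ j, b 0 j * b 1 j)
    {f : ℝ → ℝ≥0∞} (hf : Measurable f) :
    (∫⁻ x, f x ∂(gaussianReal 0 1)) ^ 2 ≤
      ∫⁻ x, f (∑ j, b 0 j * x j) * f (∑ j, b 1 j * x j) ∂(Gam 2) := by
  set ρ : ℝ := ∑ j, b 0 j * b 1 j with hρ
  have hρ1 : ρ ≤ 1 := by
    rw [hρ]
    rw [Fin.sum_univ_two] at h00 h11 ⊢
    nlinarith [sq_nonneg (b 0 0 - b 1 0), sq_nonneg (b 0 1 - b 1 1)]
  set s : ℝ := Real.sqrt ρ with hs
  set t : ℝ := Real.sqrt (1 - ρ) with ht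
  have hs2 : s * s = ρ := Real.mul_self_sqrt h01
  have ht2 : t * t = 1 - ρ := Real.mul_self_sqrt (by linarith)
  let b' : Fin 2 → Fin 3 → ℝ := ![![s, t, 0], ![s, 0, t]]
  have hmap := map_eq b b' (by
    intro i k
    fin_cases i <;> fin_cases k
    · change ∑ j, b 0 j * b 0 j = _
      rw [h00]
      simp [b', Fin.sum_univ_three]
      linarith
    · change ∑ j, b 0 j * b 1 j = _
      rw [← hρ]
      simp [b', Fin.sum_univ_three]
      linarith
    · change ∑ j, b 1 j * b 0 j = _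
      have : ∑ j, b 1 j * b 0 j = ρ := by
        rw [hρ]
        exact Finset.sum_congr rfl fun j _ => mul_comm _ _
      rw [this]
      simp [b', Fin.sum_univ_three]
      linarith
    · change ∑ j, b 1 j * b 1 j = _
      rw [h11]
      simp [b', Fin.sum_univ_three]
      linarith)
  have hF : Measurable (fun y : Fin 2 → ℝ => f (y 0) * f (y 1)) :=
    (hf.comp (measurable_pi_apply 0)).mul (hf.comp (measurable_pi_apply 1))
  have e1 : ∫⁻ x, f (∑ j, b 0 j * x j) * f (∑ j, b 1 j * x j) ∂(Gam 2) =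
      ∫⁻ x : Fin 3 → ℝ, f (s * x 0 + t * x 1) * f (s * x 0 + t * x 2) ∂(Gam 3) := by
    have h1 := lintegral_map (μ := Gam 2) hF
      (show Measurable (fun (x : Fin 2 → ℝ) (i : Fin 2) => ∑ j, b i j * x j) by fun_prop)
    have h2 := lintegral_map (μ := Gam 3) hF
      (show Measurable (fun (x : Fin 3 → ℝ) (i : Fin 2) => ∑ j, b' i j * x j) by fun_prop)
    rw [hmap] at h1
    rw [← h1, h2]
    refine lintegral_congr fun x => ?_
    simp [b', Fin.sum_univ_three]
  rw [e1]
  have e2 : ∫⁻ x : Fin 3 → ℝ, f (s * x 0 + t * x 1) * f (s * x 0 + t * x 2) ∂(Gam 3) =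
      ∫⁻ p : ℝ × (Fin 2 → ℝ), f (s * p.1 + t * p.2 0) * f (s * p.1 + t * p.2 1)
        ∂((gaussianReal 0 1).prod (Gam 2)) := by
    have h := measurePreserving_piFinSuccAbove (fun _ : Fin 3 => gaussianReal 0 1) 0
    have h' := h.lintegral_comp_emb (MeasurableEquiv.measurableEmbedding _)
      (fun p : ℝ × (Fin 2 → ℝ) => f (s * p.1 + t * p.2 0) * f (s * p.1 + t * p.2 1))
    unfold Gam
    rw [← h']
    refine lintegral_congr fun x => ?_
    rfl
  rw [e2]
  have := Pool.Agent.W2helper11.GP.prob_Gam 2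
  rw [lintegral_prod _ (by fun_prop)]
  have e3 : ∀ a : ℝ, ∫⁻ z : Fin 2 → ℝ, f (s * a + t * z 0) * f (s * a + t * z 1) ∂(Gam 2) =
      (∫⁻ y, f (s * a + t * y) ∂(gaussianReal 0 1)) ^ 2 := by
    intro a
    have h := (measurePreserving_finTwoArrow (gaussianReal 0 1)).lintegral_comp_emb
      (MeasurableEquiv.measurableEmbedding _)
      (fun q : ℝ × ℝ => f (s * a + t * q.1) * f (s * a + t * q.2))
    have h2 : ∫⁻ z : Fin 2 → ℝ, f (s * a + t * z 0) * f (s * a + t * z 1) ∂(Gam 2) =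
        ∫⁻ q : ℝ × ℝ, f (s * a + t * q.1) * f (s * a + t * q.2)
          ∂((gaussianReal 0 1).prod (gaussianReal 0 1)) := by
      unfold Gam
      rw [← h]
      rfl
    have h3 := lintegral_prod_mul (μ := gaussianReal 0 1) (ν := gaussianReal 0 1)
      (f := fun y : ℝ => f (s * a + t * y)) (g := fun y : ℝ => f (s * a + t * y))
      (by fun_prop) (by fun_prop)
    rw [h2, h3, sq]
  have e4 : (∫⁻ x, f x ∂(gaussianReal 0 1)) =
      ∫⁻ a, ∫⁻ y, f (s * a + t * y) ∂(gaussianReal 0 1) ∂(gaussianReal 0 1) := by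
    have h1 := Pool.Agent.W2helper11.GP.map_form 2 ![s, t] (by
      simp [Fin.sum_univ_two]
      nlinarith)
    rw [← h1, lintegral_map hf (by fun_prop)]
    rw [← lintegral_prod (fun p : ℝ × ℝ => f (s * p.1 + t * p.2)) (by fun_prop)]
    have h := (measurePreserving_finTwoArrow (gaussianReal 0 1)).lintegral_comp_emb
      (MeasurableEquiv.measurableEmbedding _)
      (fun q : ℝ × ℝ => f (s * q.1 + t * q.2))
    rw [h1, ← h]
    unfold Gam
    refine lintegral_congr fun x => ?_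
    simp [Fin.sum_univ_two]
  simp only [e3]
  rw [e4]
  exact jensen (by fun_prop)

theorem lint_two_abs (b : Fin 2 → Fin 2 → ℝ) (h00 : ∑ j, b 0 j * b 0 j = 1)
    (h11 : ∑ j, b 1 j * b 1 j = 1)
    {f : ℝ → ℝ≥0∞} (hf : Measurable f) (hev : ∀ x, f (-x) = f x) :
    (∫⁻ x, f x ∂(gaussianReal 0 1)) ^ 2 ≤
      ∫⁻ x, f (∑ j, b 0 j * x j) * f (∑ j, b 1 j * x j) ∂(Gam 2) := by
  rcases le_total 0 (∑ j, b 0 j * b 1 j) with h | h
  · exact lint_two b h00 h11 h hf
  · have h1 := lint_two ![b 0, -b 1] (by simpa using h00) (by simpa using h11)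
      (by
        simp only [Fin.sum_univ_two] at h ⊢
        simp
        linarith) hf
    refine h1.trans (le_of_eq (lintegral_congr fun x => ?_))
    have h2 : ∑ j, (![b 0, -b 1] : Fin 2 → Fin 2 → ℝ) 1 j * x j = -∑ j, b 1 j * x j := by
      simp
    have h3 : ∑ j, (![b 0, -b 1] : Fin 2 → Fin 2 → ℝ) 0 j * x j = ∑ j, b 0 j * x j := by
      simp
    rw [h2, h3, hev]

theorem memLp_form (b : Fin 2 → ℝ) (hb : ∑ j, b j ^ 2 = 1) (nu : ℝ) (hnu : 0 ≤ nu) :
    MemLp (fun x : Fin 2 → ℝ => |∑ j, b j * x j| ^ (2 * nu)) 2 (Gam 2) := by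
  have hm : Measurable (fun x : Fin 2 → ℝ => ∑ j, b j * x j) := by fun_prop
  have h1 := Pool.Agent.W2helper11.GP.map_form 2 b hb
  have h2 : Integrable (fun x : ℝ => |x| ^ (2 * (2 * nu))) (gaussianReal 0 1) :=
    (Pool.Agent.W2helper98.GP.p_MIDL (2 * nu) (by positivity)).1
  rw [memLp_two_iff_integrable_sq (by
    exact (Measurable.pow_const (by fun_prop) _).aestronglyMeasurable)]
  rw [← h1] at h2
  have h3 := h2.comp_measurable hm
  refine h3.congr (Filter.Eventually.of_forall fun x => ?_)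
  simp only [Function.comp_apply]
  rw [← Real.rpow_natCast, ← Real.rpow_mul (abs_nonneg _)]
  congr 1
  push_cast
  ring

theorem p_two : P_TWO := by
  intro b nu hb hnu _
  have h00 : ∑ j, b 0 j * b 0 j = 1 := by
    rw [← hb 0]
    exact Finset.sum_congr rfl fun j _ => (sq _).symm
  have h11 : ∑ j, b 1 j * b 1 j = 1 := by
    rw [← hb 1]
    exact Finset.sum_congr rfl fun j _ => (sq _).symm
  have hf : Measurable (fun x : ℝ => ENNReal.ofReal (|x| ^ (2 * nu))) :=
    (Measurable.pow_const (by fun_prop) _).ennreal_ofReal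
  have h := lint_two_abs b h00 h11 hf (fun x => by rw [abs_neg])
  have i1 : Integrable (fun x : ℝ => |x| ^ (2 * nu)) (gaussianReal 0 1) :=
    (Pool.Agent.W2helper98.GP.p_MIDL nu hnu.le).1
  have i2 : Integrable (fun x : Fin 2 → ℝ =>
      |∑ j, b 0 j * x j| ^ (2 * nu) * |∑ j, b 1 j * x j| ^ (2 * nu)) (Gam 2) :=
    (memLp_form (b 0) (hb 0) nu hnu.le).integrable_mul (memLp_form (b 1) (hb 1) nu hnu.le)
  have e1 := ofReal_integral_eq_lintegral_ofReal i1
    (Filter.Eventually.of_forall fun x => by positivity)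
  have e2 := ofReal_integral_eq_lintegral_ofReal i2
    (Filter.Eventually.of_forall fun x => by positivity)
  have e3 : ∀ x : Fin 2 → ℝ, ENNReal.ofReal (|∑ j, b 0 j * x j| ^ (2 * nu)) *
      ENNReal.ofReal (|∑ j, b 1 j * x j| ^ (2 * nu)) =
      ENNReal.ofReal (|∑ j, b 0 j * x j| ^ (2 * nu) * |∑ j, b 1 j * x j| ^ (2 * nu)) := fun x =>
    (ENNReal.ofReal_mul (by positivity)).symm
  simp only [e3] at h
  rw [← e1, ← e2, ← ENNReal.ofReal_pow (integral_nonneg fun x => by positivity),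
    ENNReal.ofReal_le_ofReal_iff (integral_nonneg fun x => by positivity), sq] at h
  exact h

end Pool.Agent.W2helper45.GP5
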